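import Mathlib

namespace Pool.Agent.Results.MP_a6415b_co.Unbounded

variable {V : Type}

/-- Token graph of a list of placements: tokens are the positions of the list. -/
def tokenGraph (G : SimpleGraph V) (l : List V) : SimpleGraph (Fin l.length) where
  Adj i j := i ≠ j ∧ (l.get i = l.get j ∨ G.Adj (l.get i) (l.get j))
  symm := ⟨fun _ _ h => ⟨h.1.symm, h.2.imp Eq.symm fun h => h.symm⟩⟩
  loopless := ⟨fun _ h => h.1 rfl⟩

/-- A history lists Spoiler's placements, newest first; it is legal if the token graph had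
chromatic number at most `w` after every move. -/
def Legal (G : SimpleGraph V) (w : ℕ) (l : List V) : Prop :=
  ∀ t, t <:+ l → (tokenGraph G t).Colorable w

/-- The coloured tokens (vertex, colour): the strategy `σ` colours the newest token,
seeing the whole history. -/
def toks (σ : List V → ℕ) : List V → List (V × ℕ)
  | [] => []
  | v :: l => (v, σ (v :: l)) :: toks σ l

/-- The colouring of the token graph is proper. -/
def Proper (G : SimpleGraph V) (T : List (V × ℕ)) : Prop :=
  T.Pairwise fun a b => (a.1 = b.1 ∨ G.Adj a.1 b.1) → a.2 ≠ b.2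

/-- The value `f(w,G)`. -/
noncomputable def value (w : ℕ) (G : SimpleGraph V) : ℕ :=
  sInf {N | ∃ σ : List V → ℕ, ∀ l, Legal G w l →
    Proper G (toks σ l) ∧ ((toks σ l).map Prod.snd).toFinset.card ≤ N}

lemma toks_append (σ : List V → ℕ) (l' l : List V) :
    ∃ A, toks σ (l' ++ l) = A ++ toks σ l ∧ A.map Prod.fst = l' := by
  induction l' with
  | nil => exact ⟨[], rfl, rfl⟩
  | cons v l' ih =>
    obtain ⟨A, h1, h2⟩ := ih
    exact ⟨(v, σ (v :: (l' ++ l))) :: A, by simp [toks, h1], by simp [h2]⟩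

lemma toks_mono (σ : List V → ℕ) (l' l : List V) {p} (h : p ∈ toks σ l) :
    p ∈ toks σ (l' ++ l) := by
  obtain ⟨A, h1, -⟩ := toks_append σ l' l
  rw [h1]; exact List.mem_append_right _ h

def Good [DecidableEq V] (G : SimpleGraph V) (m : ℕ) (l : List V) : Prop :=
  (∃ s : V → Bool, ∀ x ∈ l, ∀ y ∈ l, G.Adj x y → s x ≠ s y) ∧ ∀ x, l.count x ≤ m

lemma count_take_lt [DecidableEq V] (t : List V) (i j : ℕ) (hi : i < t.length) (hij : i < j) :
    (t.take i).count t[i] < (t.take j).count t[i] := by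
  have h1 : (t.take (i + 1)).count t[i] ≤ (t.take j).count t[i] :=
    List.Sublist.count_le _ (List.take_prefix_take_left hij).sublist
  rw [List.take_succ_eq_append_getElem hi, List.count_append, List.count_singleton_self] at h1
  omega

lemma good_legal [DecidableEq V] {G : SimpleGraph V} {m w : ℕ} (hw : 2 * m ≤ w) {l : List V}
    (h : Good G m l) : Legal G w l := by
  intro t ht
  obtain ⟨⟨s, hs⟩, hc⟩ := h
  have hc' : ∀ i : Fin t.length, (t.take i).count t[i.1] < m := fun i => by
    have h1 := count_take_lt t i t.length i.2 i.2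
    rw [List.take_length] at h1
    have h2 := List.Sublist.count_le t[i.1] ht.sublist
    have := hc t[i.1]
    omega
  have C : (tokenGraph G t).Coloring (Bool × Fin m) :=
    SimpleGraph.Coloring.mk (fun i => (s t[i.1], ⟨_, hc' i⟩)) (by
      rintro i j ⟨hij, h | h⟩ he
      · simp only [List.get_eq_getElem] at h
        simp only [Prod.mk.injEq, Fin.mk.injEq] at he
        rcases lt_or_gt_of_ne hij with h1 | h1
        · have := count_take_lt t i j i.2 h1
          rw [← h] at he; omega
        · have := count_take_lt t j i j.2 h1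
          rw [h] at he; omega
      · simp only [Prod.mk.injEq] at he
        exact hs _ (ht.subset (List.getElem_mem _)) _ (ht.subset (List.getElem_mem _)) h he.1)
  have := C.colorable
  simp only [Fintype.card_prod, Fintype.card_bool, Fintype.card_fin] at this
  exact this.mono hw

lemma good_append [DecidableEq V] {G : SimpleGraph V} {m : ℕ} {l l' : List V}
    (h : Good G m l) (h' : Good G m l') (hd : ∀ x ∈ l', x ∉ l)
    (ha : ∀ x ∈ l', ∀ y ∈ l, ¬ G.Adj x y) : Good G m (l' ++ l) := by
  obtain ⟨⟨s, hs⟩, hc⟩ := h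
  obtain ⟨⟨s', hs'⟩, hc'⟩ := h'
  refine ⟨⟨fun x => if x ∈ l' then s' x else s x, fun x hx y hy hxy => ?_⟩, fun x => ?_⟩
  · by_cases h1 : x ∈ l' <;> by_cases h2 : y ∈ l' <;> simp only [h1, h2, if_true, if_false] <;>
      simp only [List.mem_append, h1, h2, false_or] at hx hy
    · exact hs' _ h1 _ h2 hxy
    · exact (ha _ h1 _ hy hxy).elim
    · exact (ha _ h2 _ hx hxy.symm).elim
    · exact hs _ hx _ hy hxy
  · rw [List.count_append]
    by_cases h1 : x ∈ l'
    · rw [List.count_eq_zero_of_not_mem (hd x h1)]; exact hc' x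
    · rw [List.count_eq_zero_of_not_mem h1]; simpa using hc x

lemma place {G : SimpleGraph V} (σ : List V → ℕ) (m : ℕ) (v : V) (l : List V)
    (h : Proper G (toks σ (List.replicate m v ++ l))) :
    ∃ S : Finset ℕ, S.card = m ∧ (∀ u ∈ S, (v, u) ∈ toks σ (List.replicate m v ++ l)) ∧
      ∀ u ∈ S, ∀ x, G.Adj v x → (x, u) ∉ toks σ l := by
  obtain ⟨A, h1, h2⟩ := toks_append σ (List.replicate m v) l
  have h3 : ∀ a ∈ A, a.1 = v := fun a ha =>
    List.eq_of_mem_replicate (h2 ▸ List.mem_map_of_mem ha)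
  rw [h1] at h ⊢
  obtain ⟨p1, -, p3⟩ := List.pairwise_append.mp h
  have hn : (A.map Prod.snd).Nodup := by
    rw [List.Nodup, List.pairwise_map]
    exact p1.imp_of_mem fun ha hb H => H (Or.inl ((h3 _ ha).trans (h3 _ hb).symm))
  refine ⟨(A.map Prod.snd).toFinset, ?_, fun u hu => ?_, fun u hu x hx hm => ?_⟩
  · rw [List.toFinset_card_of_nodup hn]
    simpa using congrArg List.length h2
  · obtain ⟨a, ha, rfl⟩ := List.mem_map.mp (List.mem_toFinset.mp hu)
    rw [← h3 a ha]
    exact List.mem_append_left _ ha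
  · obtain ⟨a, ha, rfl⟩ := List.mem_map.mp (List.mem_toFinset.mp hu)
    exact p3 a ha _ hm (Or.inr (by rw [h3 a ha]; exact hx)) rfl

def d : ℕ → ℕ
  | 0 => 1
  | j + 1 => 2 * d j + 1

lemma force [DecidableEq V] {G : SimpleGraph V} {m w K : ℕ} (hw : 2 * m ≤ w) (L : ℕ → V → Prop)
    (mono : ∀ a b x, a ≤ b → L a x → L b x)
    (ext : ∀ n < K, ∀ R : Finset V, ∃ v, L (n + 1) v ∧ ¬ L n v ∧
      ∀ x, L n x → (G.Adj v x ↔ x ∈ R))
    (σ : List V → ℕ) (hσ : ∀ l, Legal G w l → Proper G (toks σ l)) (j : ℕ) :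
    ∀ n (l : List V), n + d j ≤ K → (∀ x ∈ l, L n x) → Good G m l →
      ∃ (l' : List V) (s : V → Bool) (R : Finset V) (U : Finset ℕ),
        (∀ x ∈ l', L (n + d j) x ∧ ¬ L n x) ∧ (∀ x ∈ l', ∀ y ∈ l, ¬ G.Adj x y) ∧
        (∀ x ∈ l', ∀ y ∈ l', G.Adj x y → s x ≠ s y) ∧ (∀ x, l'.count x ≤ m) ∧
        (∀ x ∈ R, s x = true ∧ L (n + d j) x ∧ ¬ L n x) ∧
        (∀ u ∈ U, ∃ x ∈ R, (x, u) ∈ toks σ (l' ++ l)) ∧ (j + 2) * m ≤ 2 * U.card := by
  induction j with
  | zero =>
    intro n l hn hl hg
    obtain ⟨v, h1, h2, h3⟩ := ext n (by simp [d] at hn; omega) ∅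
    have a1 : ∀ x ∈ List.replicate m v, ∀ y ∈ l, ¬ G.Adj x y := fun x hx y hy h => by
      rw [List.eq_of_mem_replicate hx, h3 y (hl y hy)] at h; simp at h
    have a2 : ∀ x ∈ List.replicate m v, ∀ y ∈ List.replicate m v, G.Adj x y → true ≠ true :=
      fun x hx y hy h => by
        rw [List.eq_of_mem_replicate hx, List.eq_of_mem_replicate hy] at h; exact (h.ne rfl).elim
    have a3 : ∀ x, (List.replicate m v).count x ≤ m := fun x => by
      simpa using List.count_le_length (a := x) (l := List.replicate m v)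
    obtain ⟨S, s1, s2, -⟩ := place σ m v l (hσ _ (good_legal hw (good_append hg
      ⟨⟨fun _ => true, a2⟩, a3⟩
      (fun x hx hx' => h2 (List.eq_of_mem_replicate hx ▸ hl x hx')) a1)))
    refine ⟨List.replicate m v, fun _ => true, {v}, S, fun x hx => ?_, a1, a2, a3, ?_, ?_, by omega⟩
    · rw [List.eq_of_mem_replicate hx]; exact ⟨h1, h2⟩
    · simpa using ⟨h1, h2⟩
    · simpa using s2
  | succ j ih =>
    intro n l hn hl hg
    have hd : d (j + 1) = 2 * d j + 1 := rfl
    obtain ⟨l1, s1, R1, U1, a1, a2, a3, a4, a5, a6, a7⟩ := ih n l (by omega) hl hg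
    have g1 : Good G m (l1 ++ l) :=
      good_append hg ⟨⟨s1, a3⟩, a4⟩ (fun x hx hx' => (a1 x hx).2 (hl x hx')) a2
    have hl1 : ∀ x ∈ l1 ++ l, L (n + d j) x := fun x hx => by
      rcases List.mem_append.mp hx with h | h
      · exact (a1 x h).1
      · exact mono _ _ _ (by omega) (hl x h)
    obtain ⟨l2, s2, R2, U2, b1, b2, b3, b4, b5, b6, b7⟩ :=
      ih (n + d j) (l1 ++ l) (by omega) hl1 g1
    have c1 : ∀ x ∈ l2 ++ l1, L (n + d j + d j) x ∧ ¬ L n x := fun x hx => by
      rcases List.mem_append.mp hx with h | h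
      · exact ⟨(b1 x h).1, fun h' => (b1 x h).2 (mono _ _ _ (by omega) h')⟩
      · exact ⟨mono _ _ _ (by omega) (a1 x h).1, (a1 x h).2⟩
    have c2 : ∀ x ∈ l2 ++ l1, ∀ y ∈ l, ¬ G.Adj x y := fun x hx y hy => by
      rcases List.mem_append.mp hx with h | h
      · exact b2 x h y (List.mem_append_right _ hy)
      · exact a2 x h y hy
    have c3 : ∀ f : Bool → Bool, Function.Injective f → ∀ x ∈ l2 ++ l1, ∀ y ∈ l2 ++ l1, G.Adj x y →
        (open Classical in if L (n + d j) x then f (s1 x) else s2 x) ≠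
        (open Classical in if L (n + d j) y then f (s1 y) else s2 y) := by
      intro f hf x hx y hy hxy
      rcases List.mem_append.mp hx with h | h <;> rcases List.mem_append.mp hy with h' | h'
      · rw [if_neg (b1 x h).2, if_neg (b1 y h').2]; exact b3 x h y h' hxy
      · exact (b2 x h y (List.mem_append_left _ h') hxy).elim
      · exact (b2 y h' x (List.mem_append_left _ h) hxy.symm).elim
      · rw [if_pos (a1 x h).1, if_pos (a1 y h').1]; exact fun e => a3 x h y h' hxy (hf e)
    have c4 : ∀ x, (l2 ++ l1).count x ≤ m := fun x => by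
      rw [List.count_append]
      by_cases h : x ∈ l2
      · rw [List.count_eq_zero_of_not_mem (l := l1) fun h' => (b1 x h).2 (a1 x h').1]
        exact b4 x
      · rw [List.count_eq_zero_of_not_mem h]; simpa using a4 x
    by_cases hU : (j + 1 + 2) * m ≤ 2 * (U1 ∪ U2).card
    · refine ⟨l2 ++ l1, _, R1 ∪ R2, U1 ∪ U2, fun x hx => ⟨mono _ _ _ (by omega) (c1 x hx).1,
        (c1 x hx).2⟩, c2, c3 id Function.injective_id, c4, fun x hx => ?_, fun u hu => ?_, hU⟩
      · rcases Finset.mem_union.mp hx with h | h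
        · rw [if_pos (a5 x h).2.1]
          exact ⟨(a5 x h).1, mono _ _ _ (by omega) (a5 x h).2.1, (a5 x h).2.2⟩
        · rw [if_neg (b5 x h).2.2]
          exact ⟨(b5 x h).1, mono _ _ _ (by omega) (b5 x h).2.1,
            fun h' => (b5 x h).2.2 (mono _ _ _ (by omega) h')⟩
      · rw [List.append_assoc]
        rcases Finset.mem_union.mp hu with h | h
        · obtain ⟨x, hx, h'⟩ := a6 u h
          exact ⟨x, Finset.mem_union_left _ hx, toks_mono _ _ _ h'⟩
        · obtain ⟨x, hx, h'⟩ := b6 u h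
          exact ⟨x, Finset.mem_union_right _ hx, h'⟩
    · obtain ⟨v, v1, v2, v3⟩ := ext (n + d j + d j) (by omega) R1
      have e2 : ∀ x ∈ List.replicate m v ++ (l2 ++ l1), ∀ y ∈ l, ¬ G.Adj x y := by
        intro x hx y hy hxy
        rcases List.mem_append.mp hx with h | h
        · rw [List.eq_of_mem_replicate h, v3 y (mono _ _ _ (by omega) (hl y hy))] at hxy
          exact (a5 y hxy).2.2 (hl y hy)
        · exact c2 x h y hy hxy
      have hv : ∀ x ∈ l2 ++ l1, x ≠ v := fun x hx e => v2 (e ▸ (c1 x hx).1)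
      have e3 : ∀ x ∈ List.replicate m v ++ (l2 ++ l1), ∀ y ∈ List.replicate m v ++ (l2 ++ l1),
          G.Adj x y → (open Classical in if x = v then true else
            if L (n + d j) x then !(s1 x) else s2 x) ≠ (open Classical in if y = v then true else
            if L (n + d j) y then !(s1 y) else s2 y) := by
        have k : ∀ y ∈ l2 ++ l1, G.Adj v y →
            (open Classical in if L (n + d j) y then !(s1 y) else s2 y) = false := by
          intro y hy h
          have := a5 y ((v3 y (c1 y hy).1).mp h)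
          rw [if_pos this.2.1, this.1]; rfl
        intro x hx y hy hxy
        rcases List.mem_append.mp hx with h | h <;> rcases List.mem_append.mp hy with h' | h'
        · rw [List.eq_of_mem_replicate h, List.eq_of_mem_replicate h'] at hxy
          exact (hxy.ne rfl).elim
        · rw [List.eq_of_mem_replicate h] at hxy ⊢
          rw [if_pos rfl, if_neg (hv y h'), k y h' hxy]; simp
        · rw [List.eq_of_mem_replicate h'] at hxy ⊢
          rw [if_pos rfl, if_neg (hv x h), k x h hxy.symm]; simp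
        · rw [if_neg (hv x h), if_neg (hv y h')]
          exact c3 (fun b => !b) (fun a b => by simp) x h y h' hxy
      have e4 : ∀ x, (List.replicate m v ++ (l2 ++ l1)).count x ≤ m := fun x => by
        rw [List.count_append]
        by_cases h : x = v
        · rw [List.count_eq_zero_of_not_mem (l := l2 ++ l1) fun h' => hv x h' h]
          simpa using List.count_le_length (a := x) (l := List.replicate m v)
        · rw [List.count_eq_zero_of_not_mem fun h' => h (List.eq_of_mem_replicate h')]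
          simpa using c4 x
      have e1 : ∀ x ∈ List.replicate m v ++ (l2 ++ l1), L (n + d (j + 1)) x ∧ ¬ L n x := by
        intro x hx
        rcases List.mem_append.mp hx with h | h
        · rw [List.eq_of_mem_replicate h]
          exact ⟨mono _ _ _ (by omega) v1, fun h' => v2 (mono _ _ _ (by omega) h')⟩
        · exact ⟨mono _ _ _ (by omega) (c1 x h).1, (c1 x h).2⟩
      have g3 := good_append hg ⟨⟨_, e3⟩, e4⟩ (fun x hx hx' => (e1 x hx).2 (hl x hx')) e2
      have eq1 : (List.replicate m v ++ (l2 ++ l1)) ++ l = List.replicate m v ++ (l2 ++ (l1 ++ l)) := by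
        simp
      obtain ⟨S, t1, t2, t3⟩ := place σ m v (l2 ++ (l1 ++ l)) (eq1 ▸ hσ _ (good_legal hw g3))
      refine ⟨_, _, insert v R2, S ∪ U2, e1, e2, e3, e4, fun x hx => ?_, fun u hu => ?_, ?_⟩
      · rcases Finset.mem_insert.mp hx with rfl | h
        · exact ⟨if_pos rfl, mono _ _ _ (by omega) v1, fun h' => v2 (mono _ _ _ (by omega) h')⟩
        · have : x ≠ v := fun e => v2 (e ▸ (b5 x h).2.1)
          rw [if_neg this, if_neg (b5 x h).2.2]
          exact ⟨(b5 x h).1, mono _ _ _ (by omega) (b5 x h).2.1,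
            fun h' => (b5 x h).2.2 (mono _ _ _ (by omega) h')⟩
      · rw [eq1]
        rcases Finset.mem_union.mp hu with h | h
        · exact ⟨v, Finset.mem_insert_self _ _, t2 u h⟩
        · obtain ⟨x, hx, h'⟩ := b6 u h
          exact ⟨x, Finset.mem_insert_of_mem hx, toks_mono _ _ _ h'⟩
      · have hS : S ∩ U2 ⊆ (U1 ∪ U2) \ U1 := by
          intro u hu
          rw [Finset.mem_inter] at hu
          refine Finset.mem_sdiff.mpr ⟨Finset.mem_union_right _ hu.2, fun h => ?_⟩
          obtain ⟨x, hx, h'⟩ := a6 u h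
          exact t3 u hu.1 x ((v3 x (mono _ _ _ (by omega) (a5 x hx).2.1)).mpr hx)
            (toks_mono _ _ _ h')
        have q1 := Finset.card_le_card hS
        have q2 := Finset.card_sdiff_add_card_eq_card (Finset.subset_union_left (s₁ := U1) (s₂ := U2))
        have q3 := Finset.card_union_add_card_inter S U2
        have q4 : (j + 1 + 2) * m = (j + 2) * m + m := by ring
        omega

def B : ℕ → ℕ
  | 0 => 0
  | n + 1 => 2 ^ (B n + 1)

lemma B_mono : Monotone B := monotone_nat_of_le_succ fun n => by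
  have := Nat.lt_two_pow_self (n := B n + 1)
  simp only [B]; omega

def bit (M : ℕ) : SimpleGraph (Fin M) :=
  SimpleGraph.fromRel fun a b => b.val < a.val ∧ a.val.testBit b.val = true

lemma exists_bits (k : ℕ) (p : ℕ → Bool) :
    ∃ a < 2 ^ k, ∀ i < k, a.testBit i = p i := by
  induction k with
  | zero => exact ⟨0, by simp, by simp⟩
  | succ k ih =>
    obtain ⟨a, ha, h⟩ := ih
    by_cases hp : p k = true
    · refine ⟨2 ^ k + a, by omega, fun i hi => ?_⟩
      rcases Nat.lt_succ_iff_lt_or_eq.mp hi with hi | rfl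
      · rw [Nat.testBit_two_pow_add_gt hi, h i hi]
      · rw [Nat.testBit_two_pow_add_eq, Nat.testBit_lt_two_pow ha, hp]; rfl
    · refine ⟨a, by omega, fun i hi => ?_⟩
      rcases Nat.lt_succ_iff_lt_or_eq.mp hi with hi | rfl
      · exact h i hi
      · rw [Nat.testBit_lt_two_pow ha]; simpa using hp

lemma bit_ext (K n : ℕ) (hn : n < K) (R : Finset (Fin (B K))) :
    ∃ v : Fin (B K), v.val < B (n + 1) ∧ ¬ v.val < B n ∧
      ∀ x : Fin (B K), x.val < B n → ((bit (B K)).Adj v x ↔ x ∈ R) := by
  classical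
  obtain ⟨a, ha, h⟩ := exists_bits (B n + 1) fun i => decide (i = B n ∨ ∃ x ∈ R, x.val = i)
  have h1 : B n < a := by
    have := Nat.ge_two_pow_of_testBit (x := a) (i := B n) (by rw [h _ (by omega)]; simp)
    have := Nat.lt_two_pow_self (n := B n)
    omega
  refine ⟨⟨a, lt_of_lt_of_le ha (B_mono hn)⟩, ha, by simp; omega, fun x hx => ?_⟩
  simp only [bit, SimpleGraph.fromRel_adj, ne_eq, Fin.ext_iff]
  rw [h x (by omega)]
  have h2 : (∃ y ∈ R, y.val = x.val) ↔ x ∈ R :=
    ⟨fun ⟨y, hy, e⟩ => Fin.ext e ▸ hy, fun h => ⟨x, h, rfl⟩⟩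
  simp only [decide_eq_true_eq, h2]
  constructor
  · rintro ⟨-, ⟨-, h | h⟩ | ⟨h, -⟩⟩
    · omega
    · exact h
    · omega
  · intro h; exact ⟨by omega, Or.inl ⟨by omega, Or.inr h⟩⟩

lemma len_toks (σ : List V → ℕ) (l : List V) : (toks σ l).length = l.length := by
  induction l with
  | nil => rfl
  | cons v l ih => simp [toks, ih]

lemma nonempty [Fintype V] (G : SimpleGraph V) (w : ℕ) : ∃ σ : List V → ℕ, ∀ l, Legal G w l →
    Proper G (toks σ l) ∧ ((toks σ l).map Prod.snd).toFinset.card ≤ Fintype.card V * w := by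
  refine ⟨List.length, fun l hl => ⟨?_, ?_⟩⟩
  · have : ∀ l : List V, (∀ p ∈ toks List.length l, p.2 ≤ l.length) ∧
        (toks List.length l).Pairwise fun a b => a.2 ≠ b.2 := by
      intro l
      induction l with
      | nil => simp [toks]
      | cons v l ih =>
        simp only [toks, List.mem_cons, List.length_cons, List.pairwise_cons]
        refine ⟨?_, fun p hp => ?_, ih.2⟩
        · rintro p (rfl | hp)
          · simp
          · have := ih.1 p hp; omega
        · have := ih.1 p hp; omega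
    exact List.Pairwise.imp (S := fun a b : V × ℕ => (a.1 = b.1 ∨ G.Adj a.1 b.1) → a.2 ≠ b.2)
      (fun h _ => h) (this l).2
  · obtain ⟨C⟩ := hl l List.suffix_rfl
    have h1 := List.toFinset_card_le ((toks List.length l).map Prod.snd)
    have h2 : Fintype.card (Fin l.length) ≤ Fintype.card (V × Fin w) :=
      Fintype.card_le_of_injective (fun i => (l.get i, C i)) fun i j h => by
        by_contra hij
        simp only [Prod.mk.injEq] at h
        exact C.valid ⟨hij, Or.inl h.1⟩ h.2
    simp only [List.length_map, len_toks, Fintype.card_fin, Fintype.card_prod] at h1 h2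
    omega

theorem result (k : ℕ) : ∃ (n : ℕ) (G : SimpleGraph (Fin n)), ∀ w ≥ 2, k * w ≤ value w G := by
  refine ⟨B (d (6 * k)), bit _, fun w hw => ?_⟩
  obtain ⟨σ, hσ⟩ := Nat.sInf_mem (s := {N | ∃ σ : List (Fin (B (d (6 * k)))) → ℕ, ∀ l,
    Legal (bit _) w l → Proper (bit _) (toks σ l) ∧
      ((toks σ l).map Prod.snd).toFinset.card ≤ N}) ⟨_, nonempty _ w⟩
  have hm : 2 * (w / 2) ≤ w := Nat.mul_div_le _ _
  obtain ⟨l, s, R, U, -, -, a3, a4, -, a6, a7⟩ := force (K := d (6 * k)) hm
    (fun n x => x.val < B n) (fun a b x h h' => lt_of_lt_of_le h' (B_mono h))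
    (bit_ext _) σ (fun l h => (hσ l h).1) (6 * k) 0 [] (by simp) (by simp)
    ⟨⟨fun _ => true, by simp⟩, by simp⟩
  have h1 := (hσ l (good_legal hm ⟨⟨s, a3⟩, a4⟩)).2
  have h2 : U ⊆ ((toks σ l).map Prod.snd).toFinset := fun u hu => by
    obtain ⟨x, -, h⟩ := a6 u hu
    rw [List.append_nil] at h
    exact List.mem_toFinset.mpr (List.mem_map_of_mem h)
  have h3 := Finset.card_le_card h2
  have h4 : w ≤ 3 * (w / 2) := by omega
  have h5 := Nat.mul_le_mul_left k h4
  unfold value
  nlinarith

end Pool.Agent.Results.MP_a6415b_co.Unbounded
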